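import Pool.Agent.V8H78.DB.Sim

/-!
# Consequences of a simultaneous measure for the discrepancies and for inhomogeneous approximation
-/

set_option autoImplicit false

namespace Pool.Agent.V8H78.DB

open Finset Pool.Agent.V8H31.Disc

lemma natLog_le (N : ℕ) : (Nat.log 2 N : ℝ) + 1 ≤ 2 * (1 + Real.log N) := by
  have h1 : (Nat.log 2 N : ℝ) ≤ Real.logb 2 N := Real.natLog_le_logb N 2
  have h2 : Real.logb 2 N = Real.log N / Real.log 2 := rfl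
  have h3 : (0.5 : ℝ) ≤ Real.log 2 := by have := Real.log_two_gt_d9; linarith
  have h4 : 0 ≤ Real.log N := Real.log_natCast_nonneg N
  have h5 : Real.log N / Real.log 2 ≤ 2 * Real.log N := by
    rw [div_le_iff₀ (by linarith)]
    nlinarith
  linarith

/-- the inequality for the discrepancies, different lengths -/
theorem gen1 (T : Finset ℕ) (x : ℕ → ℝ) (κ : ℕ) (hκ : 2 ≤ κ) (c : ℝ) (hc : 0 < c) (h : Measure T x κ c) :
    ∃ C : ℝ, 0 < C ∧ ∀ N : ℕ → ℕ, (∀ j ∈ T, 1 ≤ N j) → ∃ j ∈ T,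
    (N j : ℝ) * discrepancy (x j) (N j) ^ (κ - 1) * ∏ i ∈ T.erase j, discrepancy (x i) (N i) ^ κ ≤
      C * ∏ i ∈ T, (1 + Real.log (N i)) ^ κ := by
  refine ⟨8 ^ (κ * T.card) / c * ∏ i ∈ T, 2 ^ κ, ?_, fun N hN => ?_⟩
  · have : (0 : ℝ) < ∏ i ∈ T, 2 ^ κ := Finset.prod_pos fun i _ => by positivity
    positivity
  obtain ⟨j, hj, h1⟩ := disc T x κ hκ c hc h N hN
  refine ⟨j, hj, h1.trans ?_⟩
  rw [mul_assoc, ← Finset.prod_mul_distrib]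
  refine mul_le_mul_of_nonneg_left ?_ (by positivity)
  refine Finset.prod_le_prod (fun i _ => by positivity) fun i _ => ?_
  rw [← mul_pow]
  exact pow_le_pow_left₀ (by positivity) (natLog_le (N i)) κ

/-- a power of one number is at most a product -/
lemma prod_ge {T : Finset ℕ} {j : ℕ} (hj : j ∈ T) {κ : ℕ} (hκ : 1 ≤ κ) (D : ℕ → ℝ) (d : ℝ) (hd : 0 ≤ d)
    (hD : ∀ i ∈ T, d ≤ D i) :
    d ^ (κ * T.card - 1) ≤ D j ^ (κ - 1) * ∏ i ∈ T.erase j, D i ^ κ := by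
  have hT : 1 ≤ T.card := Finset.card_pos.2 ⟨j, hj⟩
  have h1 : (d ^ κ) ^ (T.card - 1) ≤ ∏ i ∈ T.erase j, D i ^ κ := by
    rw [← Finset.card_erase_of_mem hj, ← Finset.prod_const]
    exact Finset.prod_le_prod (fun i _ => by positivity) fun i hi =>
      pow_le_pow_left₀ hd (hD i (Finset.mem_of_mem_erase hi)) _
  have e : d ^ (κ * T.card - 1) = d ^ (κ - 1) * (d ^ κ) ^ (T.card - 1) := by
    rw [← pow_mul, ← pow_add]
    congr 1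
    obtain ⟨t, ht⟩ : ∃ t, T.card = t + 1 := ⟨T.card - 1, by omega⟩
    rw [ht, Nat.add_sub_cancel, Nat.mul_succ]
    omega
  rw [e]
  exact mul_le_mul (pow_le_pow_left₀ hd (hD j hj) _) h1 (by positivity)
    (pow_nonneg (hd.trans (hD j hj)) _)

/-- a root -/
lemma le_of_pow_le {d A B : ℝ} (hd : 0 ≤ d) (hA : 0 ≤ A) (hB : 0 < B) (n : ℕ) (hn : n ≠ 0)
    (h : B * d ^ n ≤ A) : d ≤ A ^ (1 / (n : ℝ)) * B ^ (-1 / (n : ℝ)) := by
  have h1 : d ^ n ≤ A * B⁻¹ := by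
    rw [← div_eq_mul_inv, le_div_iff₀ hB]
    linarith
  have h2 : d = (d ^ n) ^ (1 / (n : ℝ)) := by
    rw [one_div, Real.pow_rpow_inv_natCast hd hn]
  have h3 : (d ^ n) ^ (1 / (n : ℝ)) ≤ (A * B⁻¹) ^ (1 / (n : ℝ)) :=
    Real.rpow_le_rpow (by positivity) h1 (by positivity)
  rw [← h2, Real.mul_rpow hA (by positivity), Real.inv_rpow hB.le, ← Real.rpow_neg hB.le] at h3
  rwa [neg_div]

theorem gen2 (T : Finset ℕ) (hT : T.Nonempty) (x : ℕ → ℝ) (κ : ℕ) (hκ : 2 ≤ κ) (c : ℝ) (hc : 0 < c)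
    (h : Measure T x κ c) (u : ℕ) (hu : u = κ * T.card) :
    ∃ C : ℝ, ∀ N : ℕ, 1 ≤ N → ∃ j ∈ T,
    discrepancy (x j) N ≤ C * (1 + Real.log N) ^ ((u : ℝ) / ((u - 1 : ℕ) : ℝ)) *
      (N : ℝ) ^ (-1 / ((u - 1 : ℕ) : ℝ)) := by
  obtain ⟨C, hC, h⟩ := gen1 T x κ hκ c hc h
  refine ⟨C ^ (1 / ((u - 1 : ℕ) : ℝ)), fun N hN => ?_⟩
  obtain ⟨j₀, hj₀, hmin⟩ := T.exists_min_image (fun j => discrepancy (x j) N) hT
  refine ⟨j₀, hj₀, ?_⟩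
  obtain ⟨j, hj, h1⟩ := h (fun _ => N) fun _ _ => hN
  have hN0 : (0 : ℝ) < N := by exact_mod_cast hN
  have hl : 0 ≤ Real.log N := Real.log_natCast_nonneg N
  have h2 := prod_ge hj (by omega : 1 ≤ κ) (fun i => discrepancy (x i) N) (discrepancy (x j₀) N)
    (discrepancy_nonneg _ _) hmin
  have e1 : ∏ i ∈ T, (1 + Real.log (N : ℝ)) ^ κ = (1 + Real.log N) ^ u := by
    rw [Finset.prod_const, ← pow_mul, hu]
  rw [e1] at h1
  rw [← hu] at h2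
  have hcard : 1 ≤ T.card := Finset.card_pos.2 hT
  have hu2 : 2 ≤ u := by rw [hu]; nlinarith
  have h3 : (N : ℝ) * discrepancy (x j₀) N ^ (u - 1) ≤ C * (1 + Real.log N) ^ u := by
    refine le_trans ?_ h1
    rw [mul_assoc]
    exact mul_le_mul_of_nonneg_left h2 hN0.le
  have h4 := le_of_pow_le (discrepancy_nonneg _ _) (by positivity) hN0 (u - 1) (by omega) h3
  refine h4.trans (le_of_eq ?_)
  rw [Real.mul_rpow hC.le (by positivity), ← Real.rpow_natCast (1 + Real.log (N : ℝ)) u,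
    ← Real.rpow_mul (by linarith), mul_one_div]

theorem gen3 (T : Finset ℕ) (x : ℕ → ℝ) (κ : ℕ) (hκ : 2 ≤ κ) (c : ℝ) (hc : 0 < c)
    (h : Measure T x κ c) (j₀ : ℕ) (hj₀ : j₀ ∈ T) (δ : ℝ) (hδ : 0 < δ) : ∃ C : ℝ, ∀ N : ℕ, 1 ≤ N →
    (∀ i ∈ T, i ≠ j₀ → δ ≤ discrepancy (x i) N) →
    discrepancy (x j₀) N ≤ C * (1 + Real.log N) ^ T.card * (N : ℝ) ^ (-1 / (κ : ℝ)) := by
  obtain ⟨C, hC, h⟩ := gen1 T x κ hκ c hc h
  obtain ⟨δ', hδ', hδ1, hδδ⟩ : ∃ δ' : ℝ, 0 < δ' ∧ δ' ≤ 1 ∧ δ' ≤ δ :=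
    ⟨min δ 1, lt_min hδ one_pos, min_le_right _ _, min_le_left _ _⟩
  refine ⟨(C / (δ' ^ κ) ^ (T.card - 1)) ^ (1 / (κ : ℝ)), fun N hN hi => ?_⟩
  obtain ⟨j, hj, h1⟩ := h (fun _ => N) fun _ _ => hN
  have hN0 : (0 : ℝ) < N := by exact_mod_cast hN
  have hl : 0 ≤ Real.log N := Real.log_natCast_nonneg N
  obtain ⟨D, hD⟩ : ∃ D : ℕ → ℝ, D = fun i => discrepancy (x i) N := ⟨_, rfl⟩
  have eD : ∀ i, discrepancy (x i) N = D i := fun i => by rw [hD]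
  simp only [eD] at h1 hi ⊢
  have hD0 : ∀ i, 0 ≤ D i := fun i => by rw [← eD]; exact discrepancy_nonneg _ _
  have hD1 : ∀ i, D i ≤ 1 := fun i => by rw [← eD]; exact discrepancy_le_one _ _
  have e1 : ∏ i ∈ T, (1 + Real.log (N : ℝ)) ^ κ = ((1 + Real.log N) ^ T.card) ^ κ := by
    rw [Finset.prod_const, ← pow_mul, ← pow_mul, mul_comm]
  rw [e1] at h1
  have h2 : ∏ i ∈ T, D i ^ κ ≤ D j ^ (κ - 1) * ∏ i ∈ T.erase j, D i ^ κ := by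
    rw [← Finset.mul_prod_erase T (fun i => D i ^ κ) hj]
    refine mul_le_mul_of_nonneg_right ?_ (Finset.prod_nonneg fun i _ => pow_nonneg (hD0 i) _)
    exact pow_le_pow_of_le_one (hD0 j) (hD1 j) (by omega)
  have h3 : D j₀ ^ κ * (δ' ^ κ) ^ (T.card - 1) ≤ ∏ i ∈ T, D i ^ κ := by
    rw [← Finset.mul_prod_erase T (fun i => D i ^ κ) hj₀]
    refine mul_le_mul_of_nonneg_left ?_ (pow_nonneg (hD0 _) _)
    rw [← Finset.card_erase_of_mem hj₀, ← Finset.prod_const]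
    exact Finset.prod_le_prod (fun i _ => by positivity) fun i hi' =>
      pow_le_pow_left₀ hδ'.le (hδδ.trans (hi i (Finset.mem_of_mem_erase hi') (Finset.ne_of_mem_erase hi'))) _
  have h5 : (N : ℝ) * D j₀ ^ κ ≤ C / (δ' ^ κ) ^ (T.card - 1) * ((1 + Real.log N) ^ T.card) ^ κ := by
    rw [div_mul_eq_mul_div, le_div_iff₀ (by positivity)]
    calc (N : ℝ) * D j₀ ^ κ * (δ' ^ κ) ^ (T.card - 1) = N * (D j₀ ^ κ * (δ' ^ κ) ^ (T.card - 1)) := by ring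
      _ ≤ N * (D j ^ (κ - 1) * ∏ i ∈ T.erase j, D i ^ κ) := mul_le_mul_of_nonneg_left (h3.trans h2) hN0.le
      _ ≤ _ := by rw [← mul_assoc]; exact h1
  have h6 := le_of_pow_le (hD0 j₀) (by positivity) hN0 κ (by omega) h5
  refine h6.trans (le_of_eq ?_)
  rw [Real.mul_rpow (by positivity) (by positivity)]
  congr 2
  rw [one_div, Real.pow_rpow_inv_natCast (by positivity) (by omega)]

theorem gen4 (T : Finset ℕ) (x : ℕ → ℝ) (κ : ℕ) (hκ : 1 ≤ κ) (c : ℝ) (hc : 0 < c)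
    (h : Measure T x κ c) : ∃ C : ℝ, 0 < C ∧ ∀ (N : ℕ → ℕ) (ρ y : ℕ → ℝ), (∀ j ∈ T, 1 ≤ N j) → (∀ j ∈ T, 0 < ρ j) →
    (∀ j ∈ T, C < (N j : ℝ) * ρ j ^ (κ - 1) * ∏ i ∈ T.erase j, ρ i ^ κ) →
    ∃ j ∈ T, ∃ (n : ℕ) (m : ℤ), 1 ≤ n ∧ n ≤ N j ∧ |(n : ℝ) * x j - m - y j| < ρ j := by
  refine ⟨2 ^ (κ * T.card) / c, by positivity, fun N ρ y hN hρ hC => ?_⟩
  by_contra hcon
  push Not at hcon
  obtain ⟨j, hj, h1⟩ := inhom T x κ hκ c hc h N hN ρ y hρ hcon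
  exact absurd h1 (not_le.2 (hC j hj))

theorem gen5 (T : Finset ℕ) (hT : T.Nonempty) (x : ℕ → ℝ) (κ : ℕ) (hκ : 2 ≤ κ) (c : ℝ) (hc : 0 < c)
    (h : Measure T x κ c) (u : ℕ) (hu : u = κ * T.card) :
    ∃ C : ℝ, ∀ N : ℕ, 1 ≤ N → ∃ j ∈ T, ∀ y : ℝ, ∃ (n : ℕ) (m : ℤ), 1 ≤ n ∧ n ≤ N ∧
    |(n : ℝ) * x j - m - y| ≤ C * (N : ℝ) ^ (-1 / ((u - 1 : ℕ) : ℝ)) := by
  obtain ⟨C, hC, h⟩ := gen4 T x κ (by omega) c hc h
  refine ⟨C + 1, fun N hN => ?_⟩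
  have hN0 : (0 : ℝ) < N := by exact_mod_cast hN
  have hcard : 1 ≤ T.card := Finset.card_pos.2 hT
  have hu2 : 2 ≤ u := by rw [hu]; nlinarith
  by_contra hcon
  push Not at hcon
  have h1 : ∀ j, ∃ y : ℝ, j ∈ T → ∀ (n : ℕ) (m : ℤ), 1 ≤ n → n ≤ N →
      (C + 1) * (N : ℝ) ^ (-1 / ((u - 1 : ℕ) : ℝ)) < |(n : ℝ) * x j - m - y| := by
    intro j
    by_cases hj : j ∈ T
    · obtain ⟨y, hy⟩ := hcon j hj
      exact ⟨y, fun _ => hy⟩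
    · exact ⟨0, fun h => absurd h hj⟩
  choose y hy using h1
  obtain ⟨ρ, hρ⟩ : ∃ ρ : ℝ, ρ = (C + 1) * (N : ℝ) ^ (-1 / ((u - 1 : ℕ) : ℝ)) := ⟨_, rfl⟩
  have hρ0 : 0 < ρ := by rw [hρ]; positivity
  obtain ⟨j, hj, n, m, h2, h3, h4⟩ := h (fun _ => N) (fun _ => ρ) y (fun _ _ => hN) (fun _ _ => hρ0) (fun j hj => by
    have h5 := prod_ge hj (by omega : 1 ≤ κ) (fun _ => ρ) ρ hρ0.le fun _ _ => le_rfl
    rw [← hu] at h5
    have hu1 : ((u - 1 : ℕ) : ℝ) ≠ 0 := by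
      have : u - 1 ≠ 0 := by omega
      exact_mod_cast this
    have h6 : (N : ℝ) * ρ ^ (u - 1) = (C + 1) ^ (u - 1) := by
      have e1 : ((N : ℝ) ^ (-1 / ((u - 1 : ℕ) : ℝ))) ^ (u - 1) = (N : ℝ)⁻¹ := by
        rw [← Real.rpow_natCast, ← Real.rpow_mul hN0.le, ← Real.rpow_neg_one]
        congr 1
        field_simp
      rw [hρ, mul_pow, e1]
      field_simp
    have h7 : C < (C + 1) ^ (u - 1) := by
      have h8 : (C + 1) ^ 1 ≤ (C + 1) ^ (u - 1) := pow_le_pow_right₀ (by linarith) (by omega)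
      rw [pow_one] at h8
      linarith
    beta_reduce at h5 ⊢
    calc C < (C + 1) ^ (u - 1) := h7
      _ = N * ρ ^ (u - 1) := h6.symm
      _ ≤ N * (ρ ^ (κ - 1) * ∏ i ∈ T.erase j, ρ ^ κ) := mul_le_mul_of_nonneg_left h5 hN0.le
      _ = _ := by ring)
  rw [hρ] at h4
  exact absurd (hy j hj n m h2 h3) (not_lt.2 h4.le)

end Pool.Agent.V8H78.DB
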