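import Pool.Agent.V8H31.Disc

/-!
# The discrepancies of the multiples of several numbers with a simultaneous measure
-/

set_option autoImplicit false

namespace Pool.Agent.V8H78.DB

open Finset Pool.Agent.V8H31.Disc

/-- A simultaneous measure for the numbers `x j`, `j ∈ T`. -/
def Measure (T : Finset ℕ) (x : ℕ → ℝ) (κ : ℕ) (c : ℝ) : Prop :=
  ∀ (a : ℕ → ℤ) (q : ℕ), 0 < q → ∃ j ∈ T, c / (q : ℝ) ^ κ ≤ |x j - (a j : ℝ) / q|

/-- Fractions with their own denominators: for one `j` the fraction is not good. -/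
theorem own (T : Finset ℕ) (x : ℕ → ℝ) (κ : ℕ) (hκ : 1 ≤ κ) (c : ℝ) (h : Measure T x κ c)
    (a : ℕ → ℤ) (q : ℕ → ℕ) (hq : ∀ j ∈ T, 0 < q j) :
    ∃ j ∈ T, c ≤ |(q j : ℝ) * x j - a j| * (q j : ℝ) ^ (κ - 1) * ∏ i ∈ T.erase j, (q i : ℝ) ^ κ := by
  have hQ : 0 < ∏ i ∈ T, q i := Finset.prod_pos hq
  obtain ⟨j, hj, h1⟩ := h (fun i => a i * (∏ l ∈ T.erase i, q l : ℕ)) (∏ i ∈ T, q i) hQ
  refine ⟨j, hj, ?_⟩
  have hqj : (0 : ℝ) < q j := by exact_mod_cast hq j hj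
  have e1 : ((∏ i ∈ T, q i : ℕ) : ℝ) = (q j : ℝ) * ((∏ l ∈ T.erase j, q l : ℕ) : ℝ) := by
    rw [← Finset.mul_prod_erase T q hj]
    push_cast
    rfl
  have hP : (0 : ℝ) < ((∏ l ∈ T.erase j, q l : ℕ) : ℝ) := by
    have : 0 < ∏ l ∈ T.erase j, q l := Finset.prod_pos fun i hi => hq i (Finset.mem_of_mem_erase hi)
    exact_mod_cast this
  rw [e1] at h1
  obtain ⟨P, hPe⟩ : ∃ P : ℝ, P = ((∏ l ∈ T.erase j, q l : ℕ) : ℝ) := ⟨_, rfl⟩
  have e2 : ∏ i ∈ T.erase j, (q i : ℝ) ^ κ = P ^ κ := by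
    rw [hPe, Finset.prod_pow]
    push_cast
    rfl
  beta_reduce at h1
  rw [Int.cast_mul, Int.cast_natCast, ← hPe] at h1
  rw [← hPe] at hP
  rw [e2]
  have e3 : x j - (a j : ℝ) * P / ((q j : ℝ) * P) = ((q j : ℝ) * x j - a j) / q j := by
    field_simp
  rw [e3, abs_div, abs_of_pos hqj, div_le_div_iff₀ (by positivity) hqj] at h1
  have e4 : ((q j : ℝ) * P) ^ κ = (q j : ℝ) * ((q j : ℝ) ^ (κ - 1) * P ^ κ) := by
    rw [mul_pow, ← mul_assoc, ← pow_succ', Nat.sub_add_cancel hκ]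
  rw [e4] at h1
  have h2 : (q j : ℝ) * c ≤ (q j : ℝ) * (|(q j : ℝ) * x j - a j| * ((q j : ℝ) ^ (κ - 1) * P ^ κ)) := by
    linarith
  have h3 := le_of_mul_le_mul_left h2 hqj
  rw [mul_assoc]
  exact h3

/-- **Discrepancies.** Different lengths `N j`: for one `j` the inequality holds. -/
theorem disc (T : Finset ℕ) (x : ℕ → ℝ) (κ : ℕ) (hκ : 2 ≤ κ) (c : ℝ) (hc : 0 < c) (h : Measure T x κ c)
    (N : ℕ → ℕ) (hN : ∀ j ∈ T, 1 ≤ N j) :
    ∃ j ∈ T, (N j : ℝ) * discrepancy (x j) (N j) ^ (κ - 1) * ∏ i ∈ T.erase j, discrepancy (x i) (N i) ^ κ ≤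
      8 ^ (κ * T.card) / c * ∏ i ∈ T, ((Nat.log 2 (N i) : ℝ) + 1) ^ κ := by
  classical
  have hL1 : ∀ i, (1 : ℝ) ≤ (Nat.log 2 (N i) : ℝ) + 1 := fun i => by
    have : (0 : ℝ) ≤ Nat.log 2 (N i) := Nat.cast_nonneg _
    linarith
  have hD0 : ∀ i, 0 ≤ discrepancy (x i) (N i) := fun i => discrepancy_nonneg _ _
  have hne : T.Nonempty := by
    obtain ⟨j, hj, -⟩ := h (fun _ => 0) 1 one_pos
    exact ⟨j, hj⟩
  by_cases hz : ∃ i ∈ T, discrepancy (x i) (N i) = 0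
  · obtain ⟨i, hi, hi0⟩ := hz
    refine ⟨i, hi, ?_⟩
    rw [hi0, zero_pow (by omega), mul_zero, zero_mul]
    have : 0 ≤ ∏ i ∈ T, ((Nat.log 2 (N i) : ℝ) + 1) ^ κ :=
      Finset.prod_nonneg fun i _ => by have := hL1 i; positivity
    positivity
  push Not at hz
  have hpos : ∀ i ∈ T, 0 < discrepancy (x i) (N i) := fun i hi => lt_of_le_of_ne (hD0 i) (Ne.symm (hz i hi))
  have key : ∀ i, ∃ (q : ℕ) (a : ℤ), i ∈ T → 0 < q ∧
      (q : ℝ) * discrepancy (x i) (N i) ≤ 8 * (Nat.log 2 (N i) + 1) ∧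
      (q : ℝ) * |(q : ℝ) * x i - a| * (discrepancy (x i) (N i) * N i) ≤ 8 * (Nat.log 2 (N i) + 1) := by
    intro i
    by_cases hi : i ∈ T
    · obtain ⟨q, a, h1, -, h2, h3⟩ := exists_fraction (x i) (N i) (hN i hi) _ (hpos i hi) le_rfl
      exact ⟨q, a, fun _ => ⟨h1, h2, h3⟩⟩
    · exact ⟨1, 0, fun h => absurd h hi⟩
  choose q a hqa using key
  obtain ⟨j, hj, h1⟩ := own T x κ (by omega) c h a q fun i hi => (hqa i hi).1
  refine ⟨j, hj, ?_⟩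
  obtain ⟨hq, hq1, hq2⟩ := hqa j hj
  have hqR : (1 : ℝ) ≤ q j := by exact_mod_cast hq
  obtain ⟨δ, hδ⟩ : ∃ δ, δ = fun i => discrepancy (x i) (N i) := ⟨_, rfl⟩
  obtain ⟨L, hL⟩ : ∃ L : ℕ → ℝ, L = fun i => (Nat.log 2 (N i) : ℝ) + 1 := ⟨_, rfl⟩
  have eδ : ∀ i, discrepancy (x i) (N i) = δ i := fun i => by rw [hδ]
  have eL : ∀ i, (Nat.log 2 (N i) : ℝ) + 1 = L i := fun i => by rw [hL]
  simp only [eδ, eL] at hq1 hq2 hL1 hpos hD0 ⊢
  have hother : (∏ i ∈ T.erase j, (q i : ℝ) ^ κ) * ∏ i ∈ T.erase j, δ i ^ κ ≤ ∏ i ∈ T.erase j, (8 * L i) ^ κ := by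
    rw [← Finset.prod_mul_distrib]
    refine Finset.prod_le_prod (fun i _ => by have := hD0 i; positivity) fun i hi => ?_
    rw [← mul_pow]
    have hi' := (hqa i (Finset.mem_of_mem_erase hi)).2.1
    simp only [eδ, eL] at hi'
    exact pow_le_pow_left₀ (by have := hD0 i; positivity) hi' κ
  have hself : |(q j : ℝ) * x j - a j| * (q j : ℝ) ^ (κ - 1) * (N j * δ j ^ (κ - 1)) ≤ (8 * L j) ^ (κ - 1) := by
    have e : κ - 1 = (κ - 2) + 1 := by omega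
    rw [e]
    calc |(q j : ℝ) * x j - a j| * (q j : ℝ) ^ (κ - 2 + 1) * (N j * δ j ^ (κ - 2 + 1))
        = ((q j : ℝ) * |(q j : ℝ) * x j - a j| * (δ j * N j)) * (q j * δ j) ^ (κ - 2) := by
          rw [mul_pow, pow_succ, pow_succ]
          ring
      _ ≤ (8 * L j) * (8 * L j) ^ (κ - 2) := by
          have h3 := hD0 j
          have h4 := hL1 j
          refine mul_le_mul hq2 (pow_le_pow_left₀ (by positivity) hq1 _) (by positivity) (by positivity)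
      _ = _ := by rw [pow_succ]; ring
  have hLj := hL1 j
  have e8 : ∏ i ∈ T, (8 * L i) ^ κ = 8 ^ (κ * T.card) * ∏ i ∈ T, L i ^ κ := by
    simp only [mul_pow]
    rw [Finset.prod_mul_distrib, Finset.prod_const, ← pow_mul]
  have e9 : (8 * L j) ^ (κ - 1) * ∏ i ∈ T.erase j, (8 * L i) ^ κ ≤ ∏ i ∈ T, (8 * L i) ^ κ := by
    rw [← Finset.mul_prod_erase T (fun i => (8 * L i) ^ κ) hj]
    refine mul_le_mul_of_nonneg_right ?_ (Finset.prod_nonneg fun i _ => by have := hL1 i; positivity)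
    exact pow_le_pow_right₀ (by linarith) (by omega)
  rw [div_mul_eq_mul_div, le_div_iff₀ hc]
  have hA : 0 ≤ |(q j : ℝ) * x j - a j| * (q j : ℝ) ^ (κ - 1) := by positivity
  have hB : 0 ≤ ∏ i ∈ T.erase j, (q i : ℝ) ^ κ := Finset.prod_nonneg fun i _ => by positivity
  have hC : 0 ≤ ∏ i ∈ T.erase j, δ i ^ κ := Finset.prod_nonneg fun i _ => by have := hD0 i; positivity
  have hE : 0 ≤ (N j : ℝ) * δ j ^ (κ - 1) := by have := hD0 j; positivity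
  calc (N j : ℝ) * δ j ^ (κ - 1) * (∏ i ∈ T.erase j, δ i ^ κ) * c
      ≤ (N j : ℝ) * δ j ^ (κ - 1) * (∏ i ∈ T.erase j, δ i ^ κ) *
        (|(q j : ℝ) * x j - a j| * (q j : ℝ) ^ (κ - 1) * ∏ i ∈ T.erase j, (q i : ℝ) ^ κ) :=
        mul_le_mul_of_nonneg_left h1 (mul_nonneg hE hC)
    _ = (|(q j : ℝ) * x j - a j| * (q j : ℝ) ^ (κ - 1) * (N j * δ j ^ (κ - 1))) *
        ((∏ i ∈ T.erase j, (q i : ℝ) ^ κ) * ∏ i ∈ T.erase j, δ i ^ κ) := by ring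
    _ ≤ (8 * L j) ^ (κ - 1) * ∏ i ∈ T.erase j, (8 * L i) ^ κ :=
        mul_le_mul hself hother (mul_nonneg hB hC) (by positivity)
    _ ≤ ∏ i ∈ T, (8 * L i) ^ κ := e9
    _ = _ := e8

/-- For every real `y` some `n x - m`, `1 ≤ n ≤ N`, is within `2 / q` of `y`, where `q` is the denominator of a good
fraction. -/
theorem cover (x : ℝ) (N : ℕ) (hN : 1 ≤ N) : ∃ (q : ℕ) (a : ℤ), 0 < q ∧ |(q : ℝ) * x - a| ≤ 1 / (N + 1) ∧
    ∀ y : ℝ, ∃ (n : ℕ) (m : ℤ), 1 ≤ n ∧ n ≤ N ∧ |(n : ℝ) * x - m - y| ≤ 2 / q := by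
  obtain ⟨q, a, hq, hqN, hc, ha⟩ := dirichlet x N hN
  refine ⟨q, a, hq, ha, fun y => ?_⟩
  have hq' : (0 : ℝ) < q := by exact_mod_cast hq
  have hqN' : (q : ℝ) ≤ N := by exact_mod_cast hqN
  obtain ⟨k, hk⟩ : ∃ k : ℤ, k = ⌊(q : ℝ) * y⌋ := ⟨_, rfl⟩
  -- solve `n a ≡ k` modulo `q` with `1 ≤ n ≤ q`
  obtain ⟨u, v, huv⟩ := hc
  obtain ⟨r, hr⟩ : ∃ r : ℤ, r = (k * u - 1) % (q : ℤ) := ⟨_, rfl⟩
  have hqZ : (0 : ℤ) < q := by exact_mod_cast hq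
  have hr0 : 0 ≤ r := by rw [hr]; exact Int.emod_nonneg _ hqZ.ne'
  have hr1 : r < q := by rw [hr]; exact Int.emod_lt_of_pos _ hqZ
  obtain ⟨s, hs⟩ : ∃ s : ℤ, k * u - 1 = r + q * s := ⟨(k * u - 1) / q, by
    rw [hr]
    exact (Int.emod_add_mul_ediv _ _).symm⟩
  obtain ⟨n, hn⟩ : ∃ n : ℕ, (n : ℤ) = r + 1 := ⟨(r + 1).toNat, Int.toNat_of_nonneg (by omega)⟩
  have hn1 : 1 ≤ n := by omega
  have hnq : n ≤ q := by omega
  -- `n a = k - q m'`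
  obtain ⟨m', hm'⟩ : ∃ m' : ℤ, (n : ℤ) * a = k + q * m' := by
    refine ⟨- s * a - k * v, ?_⟩
    rw [hn]
    have : r + 1 = k * u - q * s := by linarith
    rw [this]
    linear_combination k * huv
  refine ⟨n, m', hn1, hnq.trans hqN, ?_⟩
  have hnq' : (n : ℝ) ≤ q := by exact_mod_cast hnq
  have hm : (n : ℝ) * a = k + q * m' := by exact_mod_cast hm'
  have e1 : (n : ℝ) * x - m' - y = (n / q) * (q * x - a) + (k - q * y) / q := by
    field_simp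
    linear_combination hm
  have h1 : |(k : ℝ) - q * y| ≤ 1 := by
    rw [hk, abs_le]
    have h2 := Int.floor_le ((q : ℝ) * y)
    have h3 := Int.lt_floor_add_one ((q : ℝ) * y)
    constructor <;> linarith
  have h2 : |(n / q : ℝ) * (q * x - a)| ≤ 1 / q := by
    rw [abs_mul, abs_of_nonneg (by positivity)]
    have h3 : (n / q : ℝ) ≤ 1 := by
      rw [div_le_one hq']
      exact hnq'
    calc (n / q : ℝ) * |(q : ℝ) * x - a| ≤ 1 * (1 / (N + 1)) :=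
          mul_le_mul h3 ha (abs_nonneg _) zero_le_one
      _ ≤ 1 / q := by
          rw [one_mul]
          exact one_div_le_one_div_of_le hq' (by linarith)
  rw [e1]
  refine (abs_add_le _ _).trans ?_
  rw [abs_div ((k : ℝ) - q * y), abs_of_pos hq']
  have h4 : |(k : ℝ) - q * y| / q ≤ 1 / q := div_le_div_of_nonneg_right h1 hq'.le
  have e2 : (2 : ℝ) / q = 1 / q + 1 / q := by ring
  rw [e2]
  exact add_le_add h2 h4

/-- **Inhomogeneous approximation.** Different lengths `N j`, targets `y j`. -/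
theorem inhom (T : Finset ℕ) (x : ℕ → ℝ) (κ : ℕ) (hκ : 1 ≤ κ) (c : ℝ) (hc : 0 < c) (h : Measure T x κ c)
    (N : ℕ → ℕ) (hN : ∀ j ∈ T, 1 ≤ N j) (ρ y : ℕ → ℝ) (hρ : ∀ j ∈ T, 0 < ρ j)
    (hfar : ∀ j ∈ T, ∀ (n : ℕ) (m : ℤ), 1 ≤ n → n ≤ N j → ρ j ≤ |(n : ℝ) * x j - m - y j|) :
    ∃ j ∈ T, (N j : ℝ) * ρ j ^ (κ - 1) * ∏ i ∈ T.erase j, ρ i ^ κ ≤ 2 ^ (κ * T.card) / c := by
  classical
  have key : ∀ i, ∃ (q : ℕ) (a : ℤ), i ∈ T → 0 < q ∧ (q : ℝ) * ρ i ≤ 2 ∧ |(q : ℝ) * x i - a| ≤ 1 / (N i + 1) := by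
    intro i
    by_cases hi : i ∈ T
    · obtain ⟨q, a, h1, h2, h3⟩ := cover (x i) (N i) (hN i hi)
      refine ⟨q, a, fun _ => ⟨h1, ?_, h2⟩⟩
      obtain ⟨n, m, h4, h5, h6⟩ := h3 (y i)
      have h7 := (hfar i hi n m h4 h5).trans h6
      have hq' : (0 : ℝ) < q := by exact_mod_cast h1
      rw [le_div_iff₀ hq'] at h7
      linarith
    · exact ⟨1, 0, fun h => absurd h hi⟩
  choose q a hqa using key
  obtain ⟨j, hj, h1⟩ := own T x κ hκ c h a q fun i hi => (hqa i hi).1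
  refine ⟨j, hj, ?_⟩
  obtain ⟨hq, hq1, hq2⟩ := hqa j hj
  have hother : (∏ i ∈ T.erase j, (q i : ℝ) ^ κ) * ∏ i ∈ T.erase j, ρ i ^ κ ≤ ∏ i ∈ T.erase j, (2 : ℝ) ^ κ := by
    rw [← Finset.prod_mul_distrib]
    refine Finset.prod_le_prod (fun i hi => ?_) fun i hi => ?_
    · have := hρ i (Finset.mem_of_mem_erase hi)
      positivity
    · rw [← mul_pow]
      have hi' := (hqa i (Finset.mem_of_mem_erase hi)).2.1
      have := hρ i (Finset.mem_of_mem_erase hi)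
      exact pow_le_pow_left₀ (by positivity) hi' κ
  have hρj := hρ j hj
  have hself : |(q j : ℝ) * x j - a j| * (q j : ℝ) ^ (κ - 1) * (N j * ρ j ^ (κ - 1)) ≤ 2 ^ (κ - 1) := by
    calc |(q j : ℝ) * x j - a j| * (q j : ℝ) ^ (κ - 1) * (N j * ρ j ^ (κ - 1))
        = (|(q j : ℝ) * x j - a j| * N j) * (q j * ρ j) ^ (κ - 1) := by
          rw [mul_pow]
          ring
      _ ≤ 1 * 2 ^ (κ - 1) := by
          refine mul_le_mul ?_ (pow_le_pow_left₀ (by positivity) hq1 _) (by positivity) zero_le_one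
          calc |(q j : ℝ) * x j - a j| * N j ≤ 1 / (N j + 1) * N j :=
                mul_le_mul_of_nonneg_right hq2 (Nat.cast_nonneg _)
            _ ≤ 1 := by
                rw [div_mul_eq_mul_div, one_mul, div_le_one (by positivity)]
                linarith
      _ = _ := one_mul _
  have e9 : (2 : ℝ) ^ (κ - 1) * ∏ i ∈ T.erase j, (2 : ℝ) ^ κ ≤ 2 ^ (κ * T.card) := by
    have e8 : ∏ i ∈ T, (2 : ℝ) ^ κ = 2 ^ (κ * T.card) := by
      rw [Finset.prod_const, ← pow_mul]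
    rw [← e8, ← Finset.mul_prod_erase T (fun i => (2 : ℝ) ^ κ) hj]
    refine mul_le_mul_of_nonneg_right ?_ (Finset.prod_nonneg fun i _ => by positivity)
    exact pow_le_pow_right₀ one_le_two (by omega)
  rw [le_div_iff₀ hc]
  have hB : 0 ≤ ∏ i ∈ T.erase j, (q i : ℝ) ^ κ := Finset.prod_nonneg fun i _ => by positivity
  have hC : 0 ≤ ∏ i ∈ T.erase j, ρ i ^ κ := Finset.prod_nonneg fun i hi => by
    have := hρ i (Finset.mem_of_mem_erase hi)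
    positivity
  calc (N j : ℝ) * ρ j ^ (κ - 1) * (∏ i ∈ T.erase j, ρ i ^ κ) * c
      ≤ (N j : ℝ) * ρ j ^ (κ - 1) * (∏ i ∈ T.erase j, ρ i ^ κ) *
        (|(q j : ℝ) * x j - a j| * (q j : ℝ) ^ (κ - 1) * ∏ i ∈ T.erase j, (q i : ℝ) ^ κ) :=
        mul_le_mul_of_nonneg_left h1 (mul_nonneg (by positivity) hC)
    _ = (|(q j : ℝ) * x j - a j| * (q j : ℝ) ^ (κ - 1) * (N j * ρ j ^ (κ - 1))) *
        ((∏ i ∈ T.erase j, (q i : ℝ) ^ κ) * ∏ i ∈ T.erase j, ρ i ^ κ) := by ring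
    _ ≤ 2 ^ (κ - 1) * ∏ i ∈ T.erase j, (2 : ℝ) ^ κ :=
        mul_le_mul hself hother (mul_nonneg hB hC) (by positivity)
    _ ≤ _ := e9

end Pool.Agent.V8H78.DB
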